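import Pool.Agent.H51.MF.Base

/-! # REAL -/

set_option autoImplicit false

namespace Pool.Agent.H51.MF

open Module Pool.Agent.H51.T2

universe u v

theorem s_REAL (K : Type v) [Field K] (A : Type u) [Ring A] [Algebra K A]
    (hSTAR : S_STAR K A) (hCLS : S_CLS K A) : S_REAL K A := by
  intro hK hHR c f₀ θ hf₀
  obtain ⟨h, hh⟩ := (hCLS c).2 θ
  obtain ⟨N, g, hg, hc, hcl, -⟩ := hSTAR hK hHR f₀ h hf₀
  refine ⟨g, hg, hc, fun X hX => ?_⟩
  rw [hcl X, inW_cl hX, mul_zero, zero_add]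
  exact hh X

end Pool.Agent.H51.MF
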