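import Pool.Agent.H51.MF.Base

/-! # TBN -/

set_option autoImplicit false

namespace Pool.Agent.H51.MF

open Module Pool.Agent.H51.T2

universe u v

variable {K : Type v} [Field K] {A : Type u} [Ring A] [Algebra K A]

theorem TBN_surj {c : Coo K A} {f₀ : TC K A} {η : Fin c.n → ℤ} {X Z : FM K A}
    (h : TbN c f₀ η X) (φ : X →ₗ[A] Z) (hφ : Function.Surjective φ) (hZ : InW f₀ Z) :
    0 ≤ η ⬝ᵥ c.v Z := by
  have h1 := h (LinearMap.ker φ) (inW_iso (quotKer X Z φ hφ).symm hZ)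
  rwa [v_iso c (quotKer X Z φ hφ)] at h1

theorem TBN_pow {c : Coo K A} {f₀ : TC K A} {η : Fin c.n → ℤ} {X : FM K A}
    (hX : InW f₀ X) (h : TbN c f₀ η X) (k : ℕ) : ∀ (Z : FM K A) (σ : (Fin k → X) →ₗ[A] Z),
    InW f₀ Z → Function.Surjective σ → 0 ≤ η ⬝ᵥ c.v Z := by
  induction k with
  | zero =>
    intro Z σ _ hσ
    have : Subsingleton Z := by
      refine ⟨fun a b => ?_⟩
      obtain ⟨a', rfl⟩ := hσ a
      obtain ⟨b', rfl⟩ := hσ b
      rw [Subsingleton.elim a' b']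
    rw [v_zero, dotProduct_zero]
  | succ k ih =>
    intro Z σ hZ hσ
    let φ : X →ₗ[A] Z := σ ∘ₗ LinearMap.single A (fun _ : Fin (k + 1) => (X : Type u)) 0
    let W : Submodule A Z := LinearMap.range φ
    have hW : InW f₀ (Z.sub W) := inW_range hX.1 hZ φ
    have hQ : InW f₀ (Z.quot W) := inW_quot_of_sub hZ hW
    have h1 : 0 ≤ η ⬝ᵥ c.v (Z.sub W) :=
      TBN_surj (Z := Z.sub W) h φ.rangeRestrict φ.surjective_rangeRestrict hW
    let ι : (Fin k → X) →ₗ[A] (Fin (k + 1) → X) :=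
      { toFun := fun y => Fin.cons 0 y
        map_add' := fun y y' => by
          funext i
          refine Fin.cases ?_ (fun j => ?_) i
          · simp
          · simp
        map_smul' := fun r y => by
          funext i
          refine Fin.cases ?_ (fun j => ?_) i
          · simp
          · simp }
    let ψ : (Fin k → X) →ₗ[A] (Z.quot W) := W.mkQ ∘ₗ σ ∘ₗ ι
    have hψ : Function.Surjective ψ := by
      intro z
      obtain ⟨z', rfl⟩ := Submodule.mkQ_surjective W z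
      obtain ⟨f, rfl⟩ := hσ z'
      refine ⟨fun j => f j.succ, ?_⟩
      have h2 : f = Pi.single 0 (f 0) + ι (fun j => f j.succ) := by
        funext i
        refine Fin.cases ?_ (fun j => ?_) i
        · simp [ι]
        · simp [ι]
      have h3 : σ (Pi.single 0 (f 0)) ∈ W := ⟨f 0, rfl⟩
      show W.mkQ (σ (ι (fun j => f j.succ))) = W.mkQ (σ f)
      conv_rhs => rw [h2, map_add, map_add]
      rw [show W.mkQ (σ (Pi.single 0 (f 0))) = 0 from (Submodule.Quotient.mk_eq_zero W).2 h3,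
        zero_add]
    have h2 : 0 ≤ η ⬝ᵥ c.v (Z.quot W) := ih (Z.quot W) ψ hQ hψ
    rw [v_add c Z W, dotProduct_add]
    exact add_nonneg h1 h2

theorem s_TBN (K : Type v) [Field K] (A : Type u) [Ring A] [Algebra K A] : S_TBN K A := by
  intro c f₀ η _
  refine ⟨?_, ?_, ?_⟩
  · intro X S _ hT _ T hTQ
    have h1 := hT (T.comap S.mkQ) (inW_iso (quotQuot X S T) hTQ)
    rwa [← v_iso c (quotQuot X S T)] at h1
  · intro X S hS hQ hTS hTQ T hXT
    let φ : (X.sub S) →ₗ[A] (X.quot T) := T.mkQ ∘ₗ S.subtype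
    let W : Submodule A (X.quot T) := LinearMap.range φ
    have hW : InW f₀ ((X.quot T).sub W) := inW_range hS.1 hXT φ
    have hQ' : InW f₀ ((X.quot T).quot W) := inW_quot_of_sub hXT hW
    have h1 : 0 ≤ η ⬝ᵥ c.v ((X.quot T).sub W) :=
      TBN_surj (Z := (X.quot T).sub W) hTS φ.rangeRestrict φ.surjective_rangeRestrict hW
    have hle : S ≤ LinearMap.ker (W.mkQ ∘ₗ T.mkQ) := by
      intro x hx
      rw [LinearMap.mem_ker]
      exact (Submodule.Quotient.mk_eq_zero W).2 ⟨⟨x, hx⟩, rfl⟩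
    let ψ : (X.quot S) →ₗ[A] ((X.quot T).quot W) := S.liftQ (W.mkQ ∘ₗ T.mkQ) hle
    have hψ : Function.Surjective ψ := by
      intro z
      obtain ⟨z', rfl⟩ := Submodule.mkQ_surjective W z
      obtain ⟨x, rfl⟩ := Submodule.mkQ_surjective T z'
      exact ⟨S.mkQ x, Submodule.liftQ_apply _ _ _⟩
    have h2 : 0 ≤ η ⬝ᵥ c.v ((X.quot T).quot W) := TBN_surj hTQ ψ hψ hQ'
    rw [v_add c (X.quot T) W, dotProduct_add]
    exact add_nonneg h1 h2
  · intro X Y k σ hX hY hσ hT T hYT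
    exact TBN_pow hX hT k (Y.quot T) (T.mkQ ∘ₗ σ) hYT
      ((Submodule.mkQ_surjective T).comp hσ)

end Pool.Agent.H51.MF
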